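import Mathlib
import Pool.Agent.Helper6.HilC

/-!
The constant `K(p,q)` in the two-parameter Hilbert inequality is never best possible in the
non-conjugate case `1/p + 1/q > 1`.
-/

namespace Pool.Agent.Results.MP_27276c_an.NotBestPossible

open MeasureTheory Set Filter Topology
open scoped ENNReal

/-- `λ = 2 - 1/p - 1/q` -/
noncomputable def lam (p q : ℝ) : ℝ := 2 - 1 / p - 1 / q

/-- `K(p,q) = π^λ csc^λ(π(q-1)/(λ q))` -/
noncomputable def K (p q : ℝ) : ℝ :=
  Real.pi ^ lam p q * (1 / Real.sin (Real.pi * (q - 1) / (lam p q * q))) ^ lam p q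

/-- Inequality (S) with constant `C`.  The terms are indexed by `m = 0, 1, 2, …`, so that `a m`,
`b n` here are `a_{m+1}`, `b_{n+1}` in the problem. -/
def SeriesIneq (p q C : ℝ) : Prop :=
  ∀ a b : ℕ → ℝ, (∀ m, 0 ≤ a m) → (∀ n, 0 ≤ b n) →
    ∑' m : ℕ, ∑' n : ℕ,
        ENNReal.ofReal (a m * b n * (((m : ℝ) + 1) + ((n : ℝ) + 1)) ^ (-lam p q))
      ≤ ENNReal.ofReal C * (∑' m : ℕ, ENNReal.ofReal (a m ^ p)) ^ (1 / p)
        * (∑' n : ℕ, ENNReal.ofReal (b n ^ q)) ^ (1 / q)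

/-- Inequality (I) with constant `C`. -/
def IntegralIneq (p q C : ℝ) : Prop :=
  ∀ f g : ℝ → ℝ, Measurable f → Measurable g → (∀ x, 0 ≤ f x) → (∀ y, 0 ≤ g y) →
    ∫⁻ x in Ioi (0 : ℝ), ∫⁻ y in Ioi (0 : ℝ), ENNReal.ofReal (f x * g y * (x + y) ^ (-lam p q))
      ≤ ENNReal.ofReal C * (∫⁻ x in Ioi (0 : ℝ), ENNReal.ofReal (f x ^ p)) ^ (1 / p)
        * (∫⁻ y in Ioi (0 : ℝ), ENNReal.ofReal (g y ^ q)) ^ (1 / q)

lemma ae_zero {f : ℝ → ℝ} {p : ℝ} (hp : 1 < p) (hf : Measurable f) (hf0 : ∀ x, 0 ≤ f x)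
    (h : ∫⁻ x in Ioi (0 : ℝ), ENNReal.ofReal (f x ^ p) = 0) :
    ∀ᵐ x ∂(volume.restrict (Ioi (0 : ℝ))), f x = 0 := by
  rw [lintegral_eq_zero_iff (by fun_prop)] at h
  filter_upwards [h] with x hx
  simp only [Pi.zero_apply, ENNReal.ofReal_eq_zero] at hx
  have h1 : f x ^ p = 0 := le_antisymm hx (Real.rpow_nonneg (hf0 x) p)
  exact (Real.rpow_eq_zero (hf0 x) (by linarith)).mp h1

lemma pow_norm {t n p : ℝ} (ht : 0 ≤ t) (hn : 0 < n) (hp : 1 < p) :
    t = n ^ (1 / p) * (t ^ p / n) ^ (1 / p) := by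
  rw [Real.div_rpow (by positivity) hn.le, ← Real.rpow_mul ht, mul_one_div_cancel (by linarith),
    Real.rpow_one]
  have : n ^ (1 / p) ≠ 0 := (Real.rpow_pos_of_pos hn _).ne'
  field_simp

theorem integral_main {p q : ℝ} (hp : 1 < p) (hq : 1 < q) (hpq : 1 < 1 / p + 1 / q) :
    ∃ C : ℝ, 0 < C ∧ C < K p q ∧ IntegralIneq p q C := by
  have hp0 : 0 < p := by linarith
  have hq0 : 0 < q := by linarith
  set al := 1 - 1 / p with hal
  set be := 1 - 1 / q with hbe
  have hal0 : 0 < al := by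
    rw [hal, sub_pos, div_lt_one hp0]; exact hp
  have hbe0 : 0 < be := by
    rw [hbe, sub_pos, div_lt_one hq0]; exact hq
  have hl : lam p q = al + be := by unfold lam; rw [hal, hbe]; ring
  have hs : al + be < 1 := by rw [hal, hbe]; linarith
  have hab : 0 < al + be := by positivity
  obtain ⟨η, hη0, hη1, hmain⟩ := Hil.norm_bound hal0 hbe0 hs
  set a := al / (al + be) with ha
  have ha0 : 0 < a := by rw [ha]; positivity
  have ha1 : a < 1 := by rw [ha, div_lt_one hab]; linarith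
  have hc := Hil.cc_pos ha0 ha1
  have hK : K p q = (Hil.cc a) ^ (-(al + be)) := by
    unfold K
    rw [hl]
    have e1 : Real.pi * (q - 1) / ((al + be) * q) = Real.pi - Real.pi * a := by
      have e2 : q - 1 = be * q := by rw [hbe]; field_simp
      rw [e2, ha]
      field_simp
      ring
    rw [e1, Real.sin_pi_sub]
    unfold Hil.cc at hc ⊢
    have hsin : 0 < Real.sin (Real.pi * a) := by
      have := mul_pos hc Real.pi_pos
      rwa [div_mul_cancel₀ _ Real.pi_ne_zero] at this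
    rw [← Real.mul_rpow Real.pi_pos.le (by positivity), Real.rpow_neg hc.le,
      ← Real.inv_rpow hc.le]
    congr 1
    field_simp
  have hKpos : 0 < (Hil.cc a) ^ (-(al + be)) := by positivity
  refine ⟨(1 - η) * (Hil.cc a) ^ (-(al + be)), mul_pos (by linarith) hKpos, ?_, ?_⟩
  · rw [hK]; nlinarith
  set C := (1 - η) * (Hil.cc a) ^ (-(al + be)) with hC
  have hC0 : 0 < C := mul_pos (by linarith) hKpos
  have hCE : ENNReal.ofReal C ≠ 0 := by
    rw [Ne, ENNReal.ofReal_eq_zero, not_le]; exact hC0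
  intro f g hf hg hf0 hg0
  set N := ∫⁻ x in Ioi (0 : ℝ), ENNReal.ofReal (f x ^ p) with hN
  set M := ∫⁻ y in Ioi (0 : ℝ), ENNReal.ofReal (g y ^ q) with hM
  have hp1 : 0 < 1 / p := by positivity
  have hq1 : 0 < 1 / q := by positivity
  by_cases hN0 : N = 0
  · have h := ae_zero hp hf hf0 hN0
    have : ∫⁻ x in Ioi (0 : ℝ), ∫⁻ y in Ioi (0 : ℝ),
        ENNReal.ofReal (f x * g y * (x + y) ^ (-lam p q)) = 0 := by
      rw [lintegral_congr_ae (g := fun _ => 0)]
      · simp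
      · filter_upwards [h] with x hx
        simp [hx]
    rw [this]; exact zero_le'
  by_cases hM0 : M = 0
  · have h := ae_zero hq hg hg0 hM0
    have : ∫⁻ x in Ioi (0 : ℝ), ∫⁻ y in Ioi (0 : ℝ),
        ENNReal.ofReal (f x * g y * (x + y) ^ (-lam p q)) = 0 := by
      have h2 : ∀ x : ℝ, ∫⁻ y in Ioi (0 : ℝ),
        ENNReal.ofReal (f x * g y * (x + y) ^ (-lam p q)) = 0 := by
        intro x
        rw [lintegral_congr_ae (g := fun _ => 0)]
        · simp
        · filter_upwards [h] with y hy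
          simp [hy]
      simp_rw [h2]
      simp
    rw [this]; exact zero_le'
  by_cases hNt : N = ⊤
  · rw [hNt, ENNReal.top_rpow_of_pos hp1, ENNReal.mul_top hCE, ENNReal.top_mul]
    · exact le_top
    · rw [Ne, ENNReal.rpow_eq_zero_iff_of_pos hq1]; exact hM0
  by_cases hMt : M = ⊤
  · rw [hMt, ENNReal.top_rpow_of_pos hq1, ENNReal.mul_top]
    · exact le_top
    · apply mul_ne_zero hCE
      rw [Ne, ENNReal.rpow_eq_zero_iff_of_pos hp1]; exact hN0
  obtain ⟨n, hn⟩ : ∃ n : ℝ, n = N.toReal := ⟨_, rfl⟩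
  obtain ⟨m, hm⟩ : ∃ m : ℝ, m = M.toReal := ⟨_, rfl⟩
  have hn0 : 0 < n := by rw [hn]; exact ENNReal.toReal_pos hN0 hNt
  have hm0 : 0 < m := by rw [hm]; exact ENNReal.toReal_pos hM0 hMt
  have eN : N = ENNReal.ofReal n := by rw [hn, ENNReal.ofReal_toReal hNt]
  have eM : M = ENNReal.ofReal m := by rw [hm, ENNReal.ofReal_toReal hMt]
  have hu1 : ∫⁻ x in Ioi (0 : ℝ), ENNReal.ofReal (f x ^ p / n) = 1 := by
    have h1 : ∀ x, ENNReal.ofReal (f x ^ p / n) = ENNReal.ofReal n⁻¹ * ENNReal.ofReal (f x ^ p) := by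
      intro x
      rw [← ENNReal.ofReal_mul (by positivity)]
      congr 1; field_simp
    simp_rw [h1]
    rw [lintegral_const_mul' _ _ ENNReal.ofReal_ne_top, ← hN, eN, ← ENNReal.ofReal_mul (by positivity),
      inv_mul_cancel₀ hn0.ne', ENNReal.ofReal_one]
  have hv1 : ∫⁻ x in Ioi (0 : ℝ), ENNReal.ofReal (g x ^ q / m) = 1 := by
    have h1 : ∀ x, ENNReal.ofReal (g x ^ q / m) = ENNReal.ofReal m⁻¹ * ENNReal.ofReal (g x ^ q) := by
      intro x
      rw [← ENNReal.ofReal_mul (by positivity)]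
      congr 1; field_simp
    simp_rw [h1]
    rw [lintegral_const_mul' _ _ ENNReal.ofReal_ne_top, ← hM, eM, ← ENNReal.ofReal_mul (by positivity),
      inv_mul_cancel₀ hm0.ne', ENNReal.ofReal_one]
  have h := hmain (fun x => f x ^ p / n) (fun y => g y ^ q / m) (by fun_prop) (by fun_prop)
    (fun x => div_nonneg (Real.rpow_nonneg (hf0 x) p) hn0.le)
    (fun y => div_nonneg (Real.rpow_nonneg (hg0 y) q) hm0.le) hu1 hv1
  have e1 : (1 : ℝ) - al = 1 / p := by rw [hal]; ring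
  have e2 : (1 : ℝ) - be = 1 / q := by rw [hbe]; ring
  rw [e1, e2] at h
  have hlhs : ∫⁻ x in Ioi (0 : ℝ), ∫⁻ y in Ioi (0 : ℝ),
        ENNReal.ofReal (f x * g y * (x + y) ^ (-lam p q))
      = ENNReal.ofReal (n ^ (1 / p) * m ^ (1 / q)) *
        ∫⁻ x in Ioi (0 : ℝ), ∫⁻ y in Ioi (0 : ℝ),
        ENNReal.ofReal ((f x ^ p / n) ^ (1 / p) * (g y ^ q / m) ^ (1 / q) * (x + y) ^ (-(al + be))) := by
    rw [← lintegral_const_mul' _ _ ENNReal.ofReal_ne_top]
    apply lintegral_congr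
    intro x
    rw [← lintegral_const_mul' _ _ ENNReal.ofReal_ne_top]
    apply lintegral_congr
    intro y
    rw [← ENNReal.ofReal_mul (by positivity), hl]
    congr 1
    have h3 := pow_norm (hf0 x) hn0 hp
    have h4 := pow_norm (hg0 y) hm0 hq
    calc f x * g y * (x + y) ^ (-(al + be))
        = (n ^ (1 / p) * (f x ^ p / n) ^ (1 / p)) * (m ^ (1 / q) * (g y ^ q / m) ^ (1 / q))
          * (x + y) ^ (-(al + be)) := by rw [← h3, ← h4]
      _ = _ := by ring
  rw [hlhs, eN, eM, ENNReal.ofReal_rpow_of_pos hn0, ENNReal.ofReal_rpow_of_pos hm0]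
  calc ENNReal.ofReal (n ^ (1 / p) * m ^ (1 / q)) * _
      ≤ ENNReal.ofReal (n ^ (1 / p) * m ^ (1 / q)) * ENNReal.ofReal C := by gcongr
    _ = ENNReal.ofReal C * ENNReal.ofReal (n ^ (1 / p)) * ENNReal.ofReal (m ^ (1 / q)) := by
        rw [ENNReal.ofReal_mul (by positivity)]; ring

/-- cutting the half-line into unit intervals -/
lemma cut (F : ℝ → ℝ≥0∞) :
    ∫⁻ x in Ioi (0 : ℝ), F x = ∑' n : ℕ, ∫⁻ x in Ioc (n : ℝ) (n + 1), F x := by
  have hU : Ioi (0 : ℝ) = ⋃ n : ℕ, Ioc (n : ℝ) (n + 1) := by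
    ext x
    simp only [mem_Ioi, mem_iUnion, mem_Ioc]
    constructor
    · intro hx
      have h1 : 0 < ⌈x⌉₊ := Nat.ceil_pos.mpr hx
      refine ⟨⌈x⌉₊ - 1, ?_, ?_⟩
      · have h2 := Nat.ceil_lt_add_one hx.le
        have h3 : ((⌈x⌉₊ - 1 : ℕ) : ℝ) = (⌈x⌉₊ : ℝ) - 1 := by
          rw [Nat.cast_sub (by omega)]; simp
        rw [h3]; linarith
      · have h2 := Nat.le_ceil x
        have h3 : ((⌈x⌉₊ - 1 : ℕ) : ℝ) = (⌈x⌉₊ : ℝ) - 1 := by
          rw [Nat.cast_sub (by omega)]; simp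
        rw [h3]; linarith
    · rintro ⟨n, h1, _⟩
      exact lt_of_le_of_lt (Nat.cast_nonneg n) h1
  rw [hU, lintegral_iUnion (fun n => measurableSet_Ioc)]
  intro i j hij
  rw [Function.onFun, Set.disjoint_left]
  rintro x ⟨h1, h2⟩ ⟨h3, h4⟩
  apply hij
  have h5 : (i : ℝ) < j + 1 := by linarith
  have h6 : (j : ℝ) < i + 1 := by linarith
  have h7 : i < j + 1 := by exact_mod_cast h5
  have h8 : j < i + 1 := by exact_mod_cast h6
  omega

/-- step function attached to a sequence -/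
noncomputable def st (a : ℕ → ℝ) (x : ℝ) : ℝ := a (⌈x⌉₊ - 1)

lemma st_eq (a : ℕ → ℝ) (n : ℕ) {x : ℝ} (hx : x ∈ Ioc (n : ℝ) (n + 1)) : st a x = a n := by
  unfold st
  have : ⌈x⌉₊ = n + 1 := by
    rw [Nat.ceil_eq_iff (by omega)]
    simp only [Nat.add_sub_cancel]
    push_cast
    exact ⟨hx.1, hx.2⟩
  rw [this]; rfl

lemma st_meas (a : ℕ → ℝ) : Measurable (st a) := by
  unfold st
  exact (measurable_from_nat (f := fun k => a (k - 1))).comp Nat.measurable_ceil

lemma st_norm (a : ℕ → ℝ) (p : ℝ) :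
    ∫⁻ x in Ioi (0 : ℝ), ENNReal.ofReal (st a x ^ p) = ∑' n, ENNReal.ofReal (a n ^ p) := by
  rw [cut]
  congr 1
  funext n
  rw [setLIntegral_congr_fun measurableSet_Ioc (g := fun _ => ENNReal.ofReal (a n ^ p))]
  · rw [setLIntegral_const, Real.volume_Ioc]
    simp
  · intro x hx
    simp only
    rw [st_eq a n hx]

theorem series_of_integral {p q C : ℝ} (hl : 0 ≤ lam p q) (h : IntegralIneq p q C) :
    SeriesIneq p q C := by
  intro a b ha hb
  have h1 := h (st a) (st b) (st_meas a) (st_meas b) (fun x => ha _) (fun y => hb _)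
  rw [st_norm, st_norm] at h1
  refine le_trans ?_ h1
  rw [cut]
  apply ENNReal.tsum_le_tsum
  intro m
  have hin : ∀ x ∈ Ioc (m : ℝ) (m + 1), ∑' n : ℕ,
        ENNReal.ofReal (a m * b n * (((m : ℝ) + 1) + ((n : ℝ) + 1)) ^ (-lam p q))
      ≤ ∫⁻ y in Ioi (0 : ℝ), ENNReal.ofReal (st a x * st b y * (x + y) ^ (-lam p q)) := by
    intro x hx
    rw [cut]
    apply ENNReal.tsum_le_tsum
    intro n
    calc ENNReal.ofReal (a m * b n * (((m : ℝ) + 1) + ((n : ℝ) + 1)) ^ (-lam p q))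
        = ∫⁻ y in Ioc (n : ℝ) (n + 1),
          ENNReal.ofReal (a m * b n * (((m : ℝ) + 1) + ((n : ℝ) + 1)) ^ (-lam p q)) := by
          rw [setLIntegral_const, Real.volume_Ioc]
          simp
      _ ≤ _ := by
          apply setLIntegral_mono' measurableSet_Ioc
          intro y hy
          rw [st_eq a m hx, st_eq b n hy]
          apply ENNReal.ofReal_le_ofReal
          have hx0 : 0 < x := lt_of_le_of_lt (Nat.cast_nonneg m) hx.1
          have hy0 : 0 < y := lt_of_le_of_lt (Nat.cast_nonneg n) hy.1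
          have hpow : (((m : ℝ) + 1) + ((n : ℝ) + 1)) ^ (-lam p q) ≤ (x + y) ^ (-lam p q) :=
            Real.rpow_le_rpow_of_nonpos (by positivity) (by linarith [hx.2, hy.2]) (by linarith)
          exact mul_le_mul_of_nonneg_left hpow (mul_nonneg (ha m) (hb n))
  calc ∑' n : ℕ, ENNReal.ofReal (a m * b n * (((m : ℝ) + 1) + ((n : ℝ) + 1)) ^ (-lam p q))
      = ∫⁻ x in Ioc (m : ℝ) (m + 1), ∑' n : ℕ,
        ENNReal.ofReal (a m * b n * (((m : ℝ) + 1) + ((n : ℝ) + 1)) ^ (-lam p q)) := by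
        rw [setLIntegral_const, Real.volume_Ioc]
        simp
    _ ≤ _ := setLIntegral_mono' measurableSet_Ioc hin

/-- For all `p, q > 1` with `1/p + 1/q > 1` there is one constant `C < K(p,q)` with which both (S)
and (I) hold. -/
theorem result (p q : ℝ) (hp : 1 < p) (hq : 1 < q) (hpq : 1 < 1 / p + 1 / q) :
    ∃ C : ℝ, 0 < C ∧ C < K p q ∧ SeriesIneq p q C ∧ IntegralIneq p q C := by
  obtain ⟨C, h0, h1, h2⟩ := integral_main hp hq hpq
  refine ⟨C, h0, h1, series_of_integral ?_ h2, h2⟩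
  unfold lam
  have h3 : 1 / p < 1 := by rw [div_lt_one (by linarith)]; exact hp
  have h4 : 1 / q < 1 := by rw [div_lt_one (by linarith)]; exact hq
  linarith

end Pool.Agent.Results.MP_27276c_an.NotBestPossible
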